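import Pool.Agent.Helper14_HSL.HSC
import Pool.Agent.AND2B.Base

/-!
# ACS (MP_1906c1_mp): the network at the last clock is the resolvent at `E + i η`

`ngn`: two networks with relatively close diagonals have close diagonal Green functions.
`acs_end`: for a final configuration (only running sites with the clock `f` and dead sites), at most
`#dead + (2/c) ∑_(b dead) Im G_bb(E + iη)` sites have a small `Im G_xx(E + iη)`, `η = f Im m₀`, where `G`
is the true resolvent (constant absorption `η`), `U = V - s Re m₀` the true potential.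
-/

set_option autoImplicit false

open scoped BigOperators ComplexConjugate

noncomputable section

namespace Pool.Agent.ACS.H48

open Pool.Agent.ANR Pool.Agent.HSL14

section gen

variable {X : Type} [Fintype X] [DecidableEq X]

theorem im_nonneg {H : Matrix X X ℝ} {κ : X → ℝ} (h : Net H κ) (x : X) : 0 ≤ (Gr H κ x x).im := by
  rw [← ward_diag h.sym (mat_unit h) x]
  exact Finset.sum_nonneg fun y _ => mul_nonneg (h.pos y).le (by positivity)

/-- resolvent identity for two networks with the same off-diagonal part -/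
theorem res_id {H H' : Matrix X X ℝ} {κ κ' : X → ℝ} (h : Net H κ) (h' : Net H' κ')
    (hoff : ∀ x y, x ≠ y → H' x y = H x y) (x : X) :
    Gr H' κ' x x - Gr H κ x x = ∑ y, Gr H' κ' x y *
      (((H y y - H' y y : ℝ) : ℂ) - Complex.I * ((κ y - κ' y : ℝ) : ℂ)) * Gr H κ y x := by
  have e1 : mat H κ - mat H' κ' = Matrix.diagonal fun y =>
      ((H y y - H' y y : ℝ) : ℂ) - Complex.I * ((κ y - κ' y : ℝ) : ℂ) := by
    ext a b
    rw [Matrix.sub_apply, mat, mat, Matrix.sub_apply, Matrix.sub_apply, Matrix.map_apply,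
      Matrix.map_apply]
    by_cases hab : a = b
    · subst hab
      rw [Matrix.diagonal_apply_eq, Matrix.diagonal_apply_eq, Matrix.diagonal_apply_eq]
      push_cast
      ring
    · rw [Matrix.diagonal_apply_ne _ hab, Matrix.diagonal_apply_ne _ hab,
        Matrix.diagonal_apply_ne _ hab, hoff a b hab]
      ring
  have e2 : Gr H' κ' - Gr H κ = Gr H' κ' * (mat H κ - mat H' κ') * Gr H κ := by
    have f1 : mat H κ * Gr H κ = 1 := Matrix.mul_nonsing_inv _ (mat_unit h)
    have f2 : Gr H' κ' * mat H' κ' = 1 := Matrix.nonsing_inv_mul _ (mat_unit h')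
    rw [Matrix.mul_sub, Matrix.sub_mul, Matrix.mul_assoc, f1, Matrix.mul_one, f2, Matrix.one_mul]
  have e3 := congrFun (congrFun e2 x) x
  rw [Matrix.sub_apply, e1, Matrix.mul_apply] at e3
  rw [e3]
  refine Finset.sum_congr rfl fun y _ => ?_
  rw [Matrix.mul_diagonal]

/-- NGN: networks with relatively close diagonals -/
theorem ngn {H H' : Matrix X X ℝ} {κ κ' : X → ℝ} (h : Net H κ) (h' : Net H' κ') {ε : ℝ}
    (hoff : ∀ x y, x ≠ y → H' x y = H x y)
    (hd : ∀ x, |H' x x - H x x| + |κ' x - κ x| ≤ ε * (Real.sqrt (κ' x) * Real.sqrt (κ x)))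
    (x : X) : ‖Gr H' κ' x x - Gr H κ x x‖ ≤
      ε * (Real.sqrt (Gr H' κ' x x).im * Real.sqrt (Gr H κ x x).im) := by
  have hε : 0 ≤ ε := by
    have h1 := hd x
    have h2 : 0 < Real.sqrt (κ' x) * Real.sqrt (κ x) :=
      mul_pos (Real.sqrt_pos.2 (h'.pos x)) (Real.sqrt_pos.2 (h.pos x))
    by_contra h3
    push Not at h3
    have := mul_neg_of_neg_of_pos h3 h2
    have h4 := abs_nonneg (H' x x - H x x)
    have h5 := abs_nonneg (κ' x - κ x)
    linarith
  rw [res_id h h' hoff x]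
  refine (norm_sum_le _ _).trans ?_
  have e1 : ∀ y, ‖Gr H' κ' x y *
      (((H y y - H' y y : ℝ) : ℂ) - Complex.I * ((κ y - κ' y : ℝ) : ℂ)) * Gr H κ y x‖ ≤
      ε * ((Real.sqrt (κ' y) * ‖Gr H' κ' x y‖) * (Real.sqrt (κ y) * ‖Gr H κ x y‖)) := by
    intro y
    rw [norm_mul, norm_mul, gr_sym h.sym κ y x]
    have f1 : ‖((H y y - H' y y : ℝ) : ℂ) - Complex.I * ((κ y - κ' y : ℝ) : ℂ)‖ ≤
        ε * (Real.sqrt (κ' y) * Real.sqrt (κ y)) := by
      refine (norm_sub_le _ _).trans (le_trans (le_of_eq ?_) (hd y))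
      rw [norm_mul, Complex.norm_I, one_mul, Complex.norm_real, Complex.norm_real, Real.norm_eq_abs,
        Real.norm_eq_abs, abs_sub_comm, abs_sub_comm (κ y)]
    calc ‖Gr H' κ' x y‖ * ‖((H y y - H' y y : ℝ) : ℂ) - Complex.I * ((κ y - κ' y : ℝ) : ℂ)‖ *
          ‖Gr H κ x y‖ ≤ ‖Gr H' κ' x y‖ * (ε * (Real.sqrt (κ' y) * Real.sqrt (κ y))) *
          ‖Gr H κ x y‖ := by gcongr
      _ = _ := by ring
  refine (Finset.sum_le_sum fun y _ => e1 y).trans ?_
  rw [← Finset.mul_sum]
  refine mul_le_mul_of_nonneg_left ?_ hε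
  have e2 := Finset.sum_mul_sq_le_sq_mul_sq Finset.univ
    (fun y => Real.sqrt (κ' y) * ‖Gr H' κ' x y‖) (fun y => Real.sqrt (κ y) * ‖Gr H κ x y‖)
  have e3 : ∀ {H : Matrix X X ℝ} {κ : X → ℝ}, Net H κ →
      ∑ y, (Real.sqrt (κ y) * ‖Gr H κ x y‖) ^ 2 = (Gr H κ x x).im := by
    intro H κ h
    rw [← ward_diag h.sym (mat_unit h) x]
    refine Finset.sum_congr rfl fun y _ => ?_
    rw [mul_pow, Real.sq_sqrt (h.pos y).le]
  rw [e3 h', e3 h] at e2
  rw [← Real.sqrt_mul (im_nonneg h' x)]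
  exact Real.le_sqrt_of_sq_le e2

/-- the imaginary parts are comparable -/
theorem ngn_im {H H' : Matrix X X ℝ} {κ κ' : X → ℝ} (h : Net H κ) (h' : Net H' κ') {ε : ℝ}
    (hε : ε ≤ 1 / 2) (hoff : ∀ x y, x ≠ y → H' x y = H x y)
    (hd : ∀ x, |H' x x - H x x| + |κ' x - κ x| ≤ ε * (Real.sqrt (κ' x) * Real.sqrt (κ x)))
    (x : X) : (Gr H' κ' x x).im ≤ 2 * (Gr H κ x x).im := by
  have h1 := ngn h h' hoff hd x
  have a0 := im_nonneg h' x
  have b0 := im_nonneg h x
  have h2 : (Gr H' κ' x x).im - (Gr H κ x x).im ≤ ‖Gr H' κ' x x - Gr H κ x x‖ := by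
    rw [← Complex.sub_im]
    exact (le_abs_self _).trans (Complex.abs_im_le_norm _)
  set a := (Gr H' κ' x x).im
  set b := (Gr H κ x x).im
  have h3 : Real.sqrt a * Real.sqrt b ≤ (a + b) / 2 := by
    have e1 := Real.sq_sqrt a0
    have e2 := Real.sq_sqrt b0
    nlinarith [sq_nonneg (Real.sqrt a - Real.sqrt b)]
  have h4 : 0 ≤ Real.sqrt a * Real.sqrt b := by positivity
  have h5 : ε * (Real.sqrt a * Real.sqrt b) ≤ 1 / 2 * (Real.sqrt a * Real.sqrt b) :=
    mul_le_mul_of_nonneg_right hε h4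
  linarith

end gen

section tor

open Pool.Agent.Anderson hiding box mem_box card_box kap
open Pool.Agent.Loc Pool.Agent.Mob Pool.Agent.Helper54.Bal
  Pool.Agent.Helper96.EXP Pool.Agent.BED
open Pool.Agent.LE.MN Pool.Agent.LE.CL Pool.Agent.LE.IR Pool.Agent.LE.QD
open Pool.Agent.AND2B (Hr res kap Vef net)
open Pool.Agent.ANP (Cfg)

variable {d M : ℕ} [NeZero M]

theorem hr_off (V V' : Tor d M → ℝ) (E : ℝ) (x y : Tor d M) (h : x ≠ y) :
    Hr V E x y = Hr V' E x y := by
  unfold Hr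
  rw [Matrix.add_apply, Matrix.add_apply, Matrix.diagonal_apply_ne _ h,
    Matrix.diagonal_apply_ne _ h]

theorem hr_diag (V V' : Tor d M → ℝ) (E : ℝ) (x : Tor d M) :
    Hr V E x x - Hr V' E x x = V x - V' x := by
  unfold Hr
  rw [Matrix.add_apply, Matrix.add_apply, Matrix.diagonal_apply_eq, Matrix.diagonal_apply_eq]
  ring

theorem adj_sym (x y : Tor d M) : adj d M x y = adj d M y x := by
  unfold adj
  simp only [Matrix.of_apply]
  refine Finset.sum_congr rfl fun i _ => ?_
  rw [add_comm]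
  congr 1
  · have : (y = x - ev i) ↔ (x = y + ev i) := by
      constructor
      · rintro rfl; abel
      · rintro rfl; abel
    simp only [this]
  · have : (y = x + ev i) ↔ (x = y - ev i) := by
      constructor
      · rintro rfl; abel
      · rintro rfl; abel
    simp only [this]

theorem hsym (V : Tor d M → ℝ) (E : ℝ) (x y : Tor d M) : Hr V E x y = Hr V E y x := by
  unfold Hr
  rw [Matrix.add_apply, Matrix.add_apply, adj_sym x y]
  congr 1
  by_cases h : x = y
  · rw [h]
  · rw [Matrix.diagonal_apply_ne _ h, Matrix.diagonal_apply_ne _ (Ne.symm h)]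

/-- THE END: few sites have a small `Im G_xx(E + iη)` -/
theorem acs_end (T : Cfg (Tor d M)) (E e₀ f c₀ δ c : ℝ) (m₀ : ℂ) (U : Tor d M → ℝ) (he₀ : 0 < e₀)
    (hf : 0 < f) (hc₀ : 0 < c₀) (hm₀ : c₀ ≤ m₀.im)
    (hs : ∀ x, (T.s x : ℝ) = 0 ∨ (T.s x : ℝ) = f)
    (hmb : ∀ x, (T.s x : ℝ) = f → ‖T.mb x - m₀‖ ≤ δ ∧ c₀ ≤ (T.mb x).im)
    (hU : ∀ x, U x = T.V x - (T.s x : ℝ) * m₀.re)
    (hδ : 6 * δ ≤ c₀) (he : e₀ ≤ δ * f) (he' : e₀ ≤ f * m₀.im) (hc : 0 < c)
    (hnet : ∀ x, (T.s x : ℝ) = f → 4 * c ≤ (net E e₀ T x x).im) :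
    ((Finset.univ.filter fun x => (Gr (Hr U E) (fun _ => f * m₀.im) x x).im < c / 2).card : ℝ) ≤
      ((Finset.univ.filter fun x => (T.s x : ℝ) = 0).card : ℝ) +
        2 / c * ∑ b ∈ Finset.univ.filter fun x => (T.s x : ℝ) = 0,
          (Gr (Hr U E) (fun _ => f * m₀.im) b b).im := by
  set D : Finset (Tor d M) := Finset.univ.filter fun x => (T.s x : ℝ) = 0 with hD
  set κN : Tor d M → ℝ := fun x => if (T.s x : ℝ) = 0 then e₀ else f * m₀.im with hκN
  have hη : 0 < f * m₀.im := mul_pos hf (hc₀.trans_le hm₀)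
  have hNn : Net (Hr U E) κN := ⟨hsym U E, fun x => by
    simp only [hκN]
    split_ifs
    · exact he₀
    · exact hη⟩
  have hk : ∀ x, 0 < kap e₀ T x := by
    intro x
    unfold kap
    rcases hs x with h | h
    · rw [h]; linarith
    · rw [h]
      have := mul_pos hf (hc₀.trans_le (hmb x h).2)
      linarith
  have hNe : Net (Hr (Vef T) E) (kap e₀ T) := ⟨hsym _ E, hk⟩
  have hδ0 : 0 ≤ δ := by
    by_contra h
    push Not at h
    have := mul_neg_of_neg_of_pos h hf
    linarith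
  have hclose : ∀ x, |Hr (Vef T) E x x - Hr U E x x| + |kap e₀ T x - κN x| ≤
      (3 * δ / c₀) * (Real.sqrt (kap e₀ T x) * Real.sqrt (κN x)) := by
    intro x
    rw [hr_diag, hU x]
    have h0 : 0 ≤ 3 * δ / c₀ := by positivity
    rcases hs x with h | h
    · have e1 : Vef T x - (T.V x - (T.s x : ℝ) * m₀.re) = 0 := by
        unfold Vef
        rw [h]
        ring
      have e2 : kap e₀ T x - κN x = 0 := by
        simp only [hκN, if_pos h, kap]
        rw [h]
        ring
      rw [e1, e2, abs_zero, add_zero]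
      exact mul_nonneg h0 (mul_nonneg (Real.sqrt_nonneg _) (Real.sqrt_nonneg _))
    · obtain ⟨g1, g2⟩ := hmb x h
      have hne : ¬ (T.s x : ℝ) = 0 := by rw [h]; exact hf.ne'
      have e1 : |Vef T x - (T.V x - (T.s x : ℝ) * m₀.re)| ≤ f * δ := by
        unfold Vef
        rw [h]
        have : T.V x - f * (T.mb x).re - (T.V x - f * m₀.re) = -(f * (T.mb x - m₀).re) := by
          rw [Complex.sub_re]; ring
        rw [this, abs_neg, abs_mul, abs_of_pos hf]
        exact mul_le_mul_of_nonneg_left ((Complex.abs_re_le_norm _).trans g1) hf.le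
      have e2 : |kap e₀ T x - κN x| ≤ e₀ + f * δ := by
        simp only [hκN, if_neg hne, kap]
        rw [h]
        have : e₀ + f * (T.mb x).im - f * m₀.im = e₀ + f * (T.mb x - m₀).im := by
          rw [Complex.sub_im]; ring
        rw [this]
        refine (abs_add_le _ _).trans ?_
        rw [abs_of_pos he₀, abs_mul, abs_of_pos hf]
        have := mul_le_mul_of_nonneg_left ((Complex.abs_im_le_norm _).trans g1) hf.le
        linarith
      have e3 : c₀ * f ≤ Real.sqrt (kap e₀ T x) * Real.sqrt (κN x) := by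
        have k1 : c₀ * f ≤ kap e₀ T x := by
          unfold kap
          rw [h]
          have := mul_le_mul_of_nonneg_left g2 hf.le
          linarith
        have k2 : c₀ * f ≤ κN x := by
          simp only [hκN, if_neg hne]
          have := mul_le_mul_of_nonneg_left hm₀ hf.le
          linarith
        have k0 : 0 ≤ c₀ * f := by positivity
        calc c₀ * f = Real.sqrt (c₀ * f) * Real.sqrt (c₀ * f) := (Real.mul_self_sqrt k0).symm
          _ ≤ _ := mul_le_mul (Real.sqrt_le_sqrt k1) (Real.sqrt_le_sqrt k2)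
            (Real.sqrt_nonneg _) (Real.sqrt_nonneg _)
      calc |Vef T x - (T.V x - (T.s x : ℝ) * m₀.re)| + |kap e₀ T x - κN x| ≤
            f * δ + (e₀ + f * δ) := add_le_add e1 e2
        _ ≤ 3 * δ / c₀ * (c₀ * f) := by
            have : 3 * δ / c₀ * (c₀ * f) = 3 * δ * f := by field_simp
            rw [this]
            linarith
        _ ≤ _ := mul_le_mul_of_nonneg_left e3 h0
  have hε : 3 * δ / c₀ ≤ 1 / 2 := by
    rw [div_le_iff₀ hc₀]
    linarith
  have hcmp : ∀ x, (net E e₀ T x x).im ≤ 2 * (Gr (Hr U E) κN x x).im := fun x =>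
    ngn_im hNn hNe hε (fun a b hab => hr_off _ _ E a b hab) hclose x
  set B : Finset (Tor d M) := Finset.univ.filter fun x =>
    (T.s x : ℝ) ≠ 0 ∧ (Gr (Hr U E) (fun _ => f * m₀.im) x x).im < c / 2 with hB
  have key : (B.card : ℝ) ≤ 2 / c * ∑ b ∈ D, (Gr (Hr U E) (fun _ => f * m₀.im) b b).im := by
    refine hsc_card (κ' := κN) (hsym U E) hη D (fun x hx => ?_) (fun x => (hNn.pos x).le)
      (fun x => ?_) (mat_unit hNn) hc B (fun x hx hx' => ?_) fun x hx => ?_
    · have : ¬ (T.s x : ℝ) = 0 := fun h => hx (Finset.mem_filter.2 ⟨Finset.mem_univ _, h⟩)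
      simp only [hκN, if_neg this]
    · simp only [hκN]
      split_ifs
      · exact he'
      · exact le_rfl
    · exact (Finset.mem_filter.1 hx).2.1 (Finset.mem_filter.1 hx').2
    · obtain ⟨-, h1, h2⟩ := Finset.mem_filter.1 hx
      have h3 : (T.s x : ℝ) = f := (hs x).resolve_left h1
      have h4 := hnet x h3
      have h5 := hcmp x
      exact ⟨by linarith, h2⟩
  have hsub : (Finset.univ.filter fun x =>
      (Gr (Hr U E) (fun _ => f * m₀.im) x x).im < c / 2) ⊆ D ∪ B := by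
    intro x hx
    have h1 := (Finset.mem_filter.1 hx).2
    by_cases h : (T.s x : ℝ) = 0
    · exact Finset.mem_union_left _ (Finset.mem_filter.2 ⟨Finset.mem_univ _, h⟩)
    · exact Finset.mem_union_right _ (Finset.mem_filter.2 ⟨Finset.mem_univ _, h, h1⟩)
  have h1 : ((Finset.univ.filter fun x =>
      (Gr (Hr U E) (fun _ => f * m₀.im) x x).im < c / 2).card : ℝ) ≤ (D.card : ℝ) + B.card := by
    exact_mod_cast (Finset.card_le_card hsub).trans (Finset.card_union_le _ _)
  linarith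

end tor

end Pool.Agent.ACS.H48
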